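import Mathlib
import Pool.Agent.Helper523.UF.FinalAll

set_option autoImplicit false

namespace Pool.Agent.Results.MP_f8d220_an.AllDegrees

open Polynomial Filter Topology
open scoped ENNReal

/-- The class `K_n` of unimodular polynomials of degree `n`. -/
def ClassK (n : ℕ) : Set ℂ[X] := {P | P.natDegree ≤ n ∧ ∀ k ≤ n, ‖P.coeff k‖ = 1}

/-- The supremum of `|Q|` over the unit circle. -/
noncomputable def maxMod (Q : ℂ[X]) : ℝ≥0∞ := ⨆ z ∈ Metric.sphere (0 : ℂ) 1, ‖Q.eval z‖ₑ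

/-- The infimum of `|Q|` over the unit circle. -/
noncomputable def minMod (Q : ℂ[X]) : ℝ≥0∞ := ⨅ z ∈ Metric.sphere (0 : ℂ) 1, ‖Q.eval z‖ₑ

open Classical in
/-- `R(Q) = max |Q| / min |Q|` on the unit circle, and `R(Q) = ∞` if `Q` vanishes somewhere there. -/
noncomputable def R (Q : ℂ[X]) : ℝ≥0∞ :=
  if ∃ z ∈ Metric.sphere (0 : ℂ) 1, Q.eval z = 0 then ⊤ else maxMod Q / minMod Q

lemma R_le (Q : ℂ[X]) (ε : ℝ) (hε : 0 < ε)
    (h : ∀ z w : ℂ, ‖z‖ = 1 → ‖w‖ = 1 → 0 < ‖Q.eval w‖ ∧ ‖Q.eval z‖ ≤ (1 + ε) * ‖Q.eval w‖) :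
    1 ≤ R Q ∧ R Q ≤ ENNReal.ofReal (1 + ε) := by
  have hno : ¬ ∃ z ∈ Metric.sphere (0 : ℂ) 1, Q.eval z = 0 := by
    rintro ⟨z, hz, h0⟩
    have hz1 : ‖z‖ = 1 := by simpa using hz
    have := (h z z hz1 hz1).1
    rw [h0, norm_zero] at this
    exact lt_irrefl _ this
  have h1s : (1 : ℂ) ∈ Metric.sphere (0 : ℂ) 1 := by simp
  have h11 : ‖(1 : ℂ)‖ = 1 := norm_one
  have hc0 : ENNReal.ofReal (1 + ε) ≠ 0 := by
    rw [ne_eq, ENNReal.ofReal_eq_zero]; linarith
  have hctop : ENNReal.ofReal (1 + ε) ≠ ⊤ := ENNReal.ofReal_ne_top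
  have hle : ∀ z ∈ Metric.sphere (0 : ℂ) 1, ∀ w ∈ Metric.sphere (0 : ℂ) 1,
      ‖Q.eval z‖ₑ ≤ ENNReal.ofReal (1 + ε) * ‖Q.eval w‖ₑ := by
    intro z hz w hw
    have hz1 : ‖z‖ = 1 := by simpa using hz
    have hw1 : ‖w‖ = 1 := by simpa using hw
    have h2 := (h z w hz1 hw1).2
    rw [← ofReal_norm, ← ofReal_norm, ← ENNReal.ofReal_mul (by linarith)]
    exact ENNReal.ofReal_le_ofReal h2
  have hmax : maxMod Q ≤ ENNReal.ofReal (1 + ε) * minMod Q := by
    unfold maxMod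
    apply iSup₂_le
    intro z hz
    rw [mul_comm, ← ENNReal.div_le_iff_le_mul (Or.inl hc0) (Or.inl hctop)]
    unfold minMod
    apply le_iInf₂
    intro w hw
    rw [ENNReal.div_le_iff_le_mul (Or.inl hc0) (Or.inl hctop), mul_comm]
    exact hle z hz w hw
  have hminle : minMod Q ≤ ‖Q.eval 1‖ₑ := iInf₂_le 1 h1s
  have hmaxge : ‖Q.eval 1‖ₑ ≤ maxMod Q := le_iSup₂ (f := fun z (_ : z ∈ Metric.sphere (0 : ℂ) 1) =>
    ‖Q.eval z‖ₑ) 1 h1s
  have hQ1 : 0 < ‖Q.eval 1‖ₑ := by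
    rw [← ofReal_norm, ENNReal.ofReal_pos]
    exact (h 1 1 h11 h11).1
  have hmin0 : minMod Q ≠ 0 := by
    intro h0
    rw [h0, mul_zero] at hmax
    exact absurd (lt_of_lt_of_le hQ1 (hmaxge.trans hmax)) (lt_irrefl _)
  have hmintop : minMod Q ≠ ⊤ := ne_top_of_le_ne_top enorm_ne_top hminle
  unfold R
  rw [if_neg hno]
  constructor
  · rw [ENNReal.le_div_iff_mul_le (Or.inl hmin0) (Or.inl hmintop), one_mul]
    exact hminle.trans hmaxge
  · rw [ENNReal.div_le_iff_le_mul (Or.inl hmin0) (Or.inl hmintop)]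
    exact hmax

lemma core_poly (ε : ℝ) (hε : 0 < ε) : ∃ N : ℕ, ∀ n : ℕ, N ≤ n → ∃ P ∈ ClassK n,
    1 ≤ R (derivative P) ∧ R (derivative P) ≤ ENNReal.ofReal (1 + ε) := by
  obtain ⟨N, hN⟩ := Pool.Agent.Helper523.UFA.core ε hε
  refine ⟨N, fun n hn => ?_⟩
  obtain ⟨a, ha1, ha2⟩ := hN n hn
  set P : ℂ[X] := ∑ k ∈ Finset.range (n + 1), C (a k) * X ^ k with hP
  have hcoef : ∀ j ≤ n, P.coeff j = a j := by
    intro j hj
    rw [hP, finsetSum_coeff]
    simp only [coeff_C_mul, coeff_X_pow]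
    rw [Finset.sum_eq_single j]
    · simp
    · intro k _ hk
      rw [if_neg (Ne.symm hk), mul_zero]
    · intro h; exact absurd (Finset.mem_range.mpr (by omega)) h
  have hev : ∀ z : ℂ, (derivative P).eval z =
      ∑ k ∈ Finset.range (n + 1), (k : ℂ) * a k * z ^ (k - 1) := by
    intro z
    rw [hP, derivative_sum, eval_finsetSum]
    apply Finset.sum_congr rfl
    intro k _
    rw [derivative_C_mul_X_pow, eval_mul, eval_C, eval_pow, eval_X]
    ring
  refine ⟨P, ⟨?_, fun k hk => by rw [hcoef k hk]; exact ha1 k⟩, ?_⟩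
  · apply natDegree_sum_le_of_forall_le
    intro k hk
    have hk' : k ≤ n := by have := Finset.mem_range.mp hk; omega
    exact (natDegree_C_mul_X_pow_le _ _).trans hk'
  · apply R_le _ ε hε
    intro z w hz hw
    rw [hev, hev]
    exact ha2 z w hz hw

/-- There is a sequence of unimodular polynomials `P_n` of degree `n` (all `n`), whose derivatives
are ultraflat: `R(P_n') → 1`. -/
theorem result : ∃ P : ℕ → ℂ[X], (∀ n, P n ∈ ClassK n) ∧
    Tendsto (fun n => R (derivative (P n))) atTop (𝓝 1) := by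
  classical
  -- property at level j
  set Q : ℕ → ℕ → Prop := fun n j => ∃ P ∈ ClassK n,
    1 ≤ R (derivative P) ∧ R (derivative P) ≤ ENNReal.ofReal (1 + 1 / ((j : ℝ) + 1)) with hQ
  have hlarge : ∀ j, ∃ N, ∀ n, N ≤ n → Q n j := fun j => core_poly (1 / ((j : ℝ) + 1)) (by positivity)
  have hdef : ∀ n, (∑ k ∈ Finset.range (n + 1), X ^ k : ℂ[X]) ∈ ClassK n := by
    intro n
    constructor
    · apply natDegree_sum_le_of_forall_le
      intro k hk
      have hk' : k ≤ n := by have := Finset.mem_range.mp hk; omega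
      exact (natDegree_X_pow_le _).trans hk'
    · intro j hj
      rw [finsetSum_coeff]
      simp only [coeff_X_pow]
      rw [Finset.sum_eq_single j]
      · simp
      · intro k _ hk
        rw [if_neg (Ne.symm hk)]
      · intro h; exact absurd (Finset.mem_range.mpr (by omega)) h
  have hex : ∀ n, ∃ P ∈ ClassK n, Q n (Nat.findGreatest (Q n) n) →
      1 ≤ R (derivative P) ∧
        R (derivative P) ≤ ENNReal.ofReal (1 + 1 / (((Nat.findGreatest (Q n) n : ℕ) : ℝ) + 1)) := by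
    intro n
    by_cases h : Q n (Nat.findGreatest (Q n) n)
    · obtain ⟨P, hP, h1⟩ := h
      exact ⟨P, hP, fun _ => h1⟩
    · exact ⟨_, hdef n, fun h' => absurd h' h⟩
  choose P hP1 hP2 using hex
  refine ⟨P, hP1, ?_⟩
  have key : ∀ j : ℕ, ∀ᶠ n in atTop, 1 ≤ R (derivative (P n)) ∧
      R (derivative (P n)) ≤ ENNReal.ofReal (1 + 1 / ((j : ℝ) + 1)) := by
    intro j
    obtain ⟨N, hN⟩ := hlarge j
    filter_upwards [eventually_ge_atTop (max N j)] with n hn
    have hn1 : N ≤ n := (le_max_left _ _).trans hn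
    have hn2 : j ≤ n := (le_max_right _ _).trans hn
    have h1 : j ≤ Nat.findGreatest (Q n) n := Nat.le_findGreatest hn2 (hN n hn1)
    have h2 : Q n (Nat.findGreatest (Q n) n) := Nat.findGreatest_spec hn2 (hN n hn1)
    obtain ⟨h3, h4⟩ := hP2 n h2
    refine ⟨h3, h4.trans ?_⟩
    apply ENNReal.ofReal_le_ofReal
    have h5 : (j : ℝ) ≤ (Nat.findGreatest (Q n) n : ℕ) := by exact_mod_cast h1
    have : 1 / (((Nat.findGreatest (Q n) n : ℕ) : ℝ) + 1) ≤ 1 / ((j : ℝ) + 1) := by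
      apply one_div_le_one_div_of_le (by positivity); linarith
    linarith
  rw [tendsto_order]
  constructor
  · intro a ha
    filter_upwards [key 0] with n hn
    exact lt_of_lt_of_le ha hn.1
  · intro b hb
    -- choose j with 1 + 1/(j+1) < b
    have hlim : Tendsto (fun j : ℕ => ENNReal.ofReal (1 + 1 / ((j : ℝ) + 1))) atTop (𝓝 1) := by
      have h1 : Tendsto (fun j : ℕ => (1 : ℝ) + 1 / ((j : ℝ) + 1)) atTop (𝓝 (1 + 0)) :=
        tendsto_const_nhds.add tendsto_one_div_add_atTop_nhds_zero_nat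
      have h2 := ENNReal.tendsto_ofReal h1
      simpa using h2
    obtain ⟨j, hj⟩ := (hlim.eventually (gt_mem_nhds hb)).exists
    filter_upwards [key j] with n hn
    exact lt_of_le_of_lt hn.2 hj

end Pool.Agent.Results.MP_f8d220_an.AllDegrees
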